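import Pool.Agent.Lib.MP_41a456_al.C.U2

section

/-!
# Paper 377: a nonzero integral polynomial does not vanish at large integers
-/

namespace Pool.Agent.Lib.MP_41a456_al.C

open Matrix

theorem eventually_ne (f : Polynomial ℤ) (hf : f ≠ 0) :
    ∃ M : ℤ, ∀ x : ℤ, M ≤ x → f.eval x ≠ 0 := by
  refine ⟨∑ r ∈ f.roots.toFinset, |r| + 1, fun x hx h0 => ?_⟩
  have h1 : x ∈ f.roots.toFinset := by
    rw [Multiset.mem_toFinset, Polynomial.mem_roots hf]
    exact h0
  have h2 : |x| ≤ ∑ r ∈ f.roots.toFinset, |r| :=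
    Finset.single_le_sum (f := fun r : ℤ => |r|) (fun r _ => abs_nonneg r) h1
  have h3 := le_abs_self x
  omega

theorem exists_eval_ne {ι : Type*} (s : Finset ι) (f : ι → Polynomial ℤ) (h : ∀ i ∈ s, f i ≠ 0) :
    ∃ M : ℤ, 0 ≤ M ∧ ∀ x : ℤ, M ≤ x → ∀ i ∈ s, (f i).eval x ≠ 0 := by
  classical
  obtain ⟨M, hM⟩ := eventually_ne (∏ i ∈ s, f i) (Finset.prod_ne_zero_iff.2 h)
  refine ⟨max M 0, le_max_right _ _, fun x hx i hi h0 => ?_⟩
  apply hM x ((le_max_left _ _).trans hx)
  rw [Polynomial.eval_prod]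
  exact Finset.prod_eq_zero hi h0

end Pool.Agent.Lib.MP_41a456_al.C
end

section

/-!
# Paper 377, section 6: splitting of `ZMod m`
-/

namespace Pool.Agent.Lib.MP_41a456_al.C

open Matrix

theorem split (d : ℕ) (m : ℕ) (hm : 0 < m) :
    ∃ m1 m2 N : ℕ, m = m1 * m2 ∧ m1 ∣ d ^ N ∧ Nat.Coprime m2 d := by
  induction m using Nat.strong_induction_on with
  | _ m ih =>
    by_cases hg : Nat.gcd m d = 1
    · exact ⟨1, m, 0, by simp, by simp, hg⟩
    · obtain ⟨m', hm'⟩ := Nat.gcd_dvd_left m d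
      have hg0 : 0 < Nat.gcd m d := Nat.gcd_pos_of_pos_left _ hm
      have hg1 : 1 < Nat.gcd m d := by omega
      have hm'0 : 0 < m' := by
        rcases Nat.eq_zero_or_pos m' with h | h
        · rw [h, mul_zero] at hm'
          omega
        · exact h
      have hlt : m' < m := by
        calc m' = 1 * m' := (one_mul _).symm
          _ < Nat.gcd m d * m' := Nat.mul_lt_mul_of_pos_right hg1 hm'0
          _ = m := hm'.symm
      obtain ⟨m1, m2, N, h1, h2, h3⟩ := ih m' hlt hm'0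
      refine ⟨Nat.gcd m d * m1, m2, N + 1, ?_, ?_, h3⟩
      · rw [mul_assoc, ← h1, ← hm']
      · rw [pow_succ, mul_comm]
        exact mul_dvd_mul h2 (Nat.gcd_dvd_right m d)

/-- `1 + d θ` is a unit, `θ = e1 t + e2 d' (2^t - 1)`. -/
theorem ring_elts (d t m : ℕ) (hd2 : 2 ∣ d) (hm : 0 < m) :
    ∃ e1 e2 d' lam' : ZMod m, e1 + e2 = 1 ∧ e1 * e2 = 0 ∧ e2 * (d * d') = e2 ∧
      (1 + d * (e1 * t + e2 * d' * (2 ^ t - 1))) * lam' = 1 := by
  obtain ⟨m1, m2, N, hmm, h1, h2⟩ := split d m hm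
  have hcop : IsCoprime (m1 : ℤ) (m2 : ℤ) := by
    rw [Nat.isCoprime_iff_coprime]
    exact Nat.Coprime.coprime_dvd_left h1 (Nat.Coprime.pow_left N h2.symm)
  obtain ⟨x, y, hxy⟩ := hcop
  -- x * m1 + y * m2 = 1
  have hm0 : ((m1 : ZMod m)) * (m2 : ZMod m) = 0 := by
    rw [← Nat.cast_mul, ← hmm, ZMod.natCast_self]
  have hxy' : (x : ZMod m) * m1 + (y : ZMod m) * m2 = 1 := by exact_mod_cast congrArg (Int.cast : ℤ → ZMod m) hxy
  -- inverses
  have hd' : IsCoprime (d : ℤ) (m2 : ℤ) := by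
    rw [Nat.isCoprime_iff_coprime]
    exact h2.symm
  obtain ⟨d', z, hd'⟩ := hd'
  have hd'' : (d' : ZMod m) * d + (z : ZMod m) * m2 = 1 := by exact_mod_cast congrArg (Int.cast : ℤ → ZMod m) hd'
  have hr1 : IsCoprime ((1 + d * t : ℕ) : ℤ) (m1 : ℤ) := by
    rw [Nat.isCoprime_iff_coprime]
    refine Nat.Coprime.coprime_dvd_right h1 (Nat.Coprime.pow_right N ?_)
    rw [Nat.coprime_iff_gcd_eq_one]
    simp
  obtain ⟨r1, z1, hr1⟩ := hr1
  have hr1' : (r1 : ZMod m) * (1 + d * t) + (z1 : ZMod m) * m1 = 1 := by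
    exact_mod_cast congrArg (Int.cast : ℤ → ZMod m) hr1
  have hr2 : IsCoprime ((2 ^ t : ℕ) : ℤ) (m2 : ℤ) := by
    rw [Nat.isCoprime_iff_coprime]
    exact Nat.Coprime.pow_left t (Nat.Coprime.coprime_dvd_left hd2 h2.symm)
  obtain ⟨r2, z2, hr2⟩ := hr2
  have hr2' : (r2 : ZMod m) * 2 ^ t + (z2 : ZMod m) * m2 = 1 := by
    exact_mod_cast congrArg (Int.cast : ℤ → ZMod m) hr2
  -- e1 = y m2, e2 = x m1
  generalize hM1 : ((m1 : ℕ) : ZMod m) = M1 at *
  generalize hM2 : ((m2 : ℕ) : ZMod m) = M2 at *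
  generalize hD : ((d : ℕ) : ZMod m) = D at *
  generalize hT : ((t : ℕ) : ZMod m) = T at *
  generalize hx : ((x : ℤ) : ZMod m) = x' at *
  generalize hy : ((y : ℤ) : ZMod m) = y' at *
  have he : y' * M2 + x' * M1 = 1 := by linear_combination hxy'
  have hee : (y' * M2) * (x' * M1) = 0 := by linear_combination y' * x' * hm0
  have h2M2 : (x' * M1) * M2 = 0 := by linear_combination x' * hm0
  have h1M1 : (y' * M2) * M1 = 0 := by linear_combination y' * hm0
  have hA : (x' * M1) * (D * (d' : ZMod m)) = x' * M1 := by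
    linear_combination x' * M1 * hd'' - (z : ZMod m) * h2M2
  have hB : 1 + D * (y' * M2 * T + x' * M1 * d' * (2 ^ t - 1)) =
      (y' * M2) * (1 + D * T) + (x' * M1) * 2 ^ t := by
    linear_combination (-1 : ZMod m) * he + ((2 : ZMod m) ^ t - 1) * hA
  refine ⟨y' * M2, x' * M1, d', y' * M2 * r1 + x' * M1 * r2, he, hee, hA, ?_⟩
  rw [hB]
  generalize y' * M2 = E1 at *
  generalize x' * M1 = E2 at *
  linear_combination E1 ^ 2 * hr1' + E2 ^ 2 * hr2' - E1 * z1 * h1M1 - E2 * z2 * h2M2 +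
    (E1 + E2 + 1) * he + ((1 + D * T) * r2 + 2 ^ t * r1 - 2) * hee

end Pool.Agent.Lib.MP_41a456_al.C
end

section

/-!
# Paper 377, section 2: rows linearly independent after a conjugation
-/

namespace Pool.Agent.Lib.MP_41a456_al.C

open Matrix

theorem LI.mul {n : ℕ} {x y : Fin n → ℤ} (h : LI x y) {P Q : Mt n} (hPQ : P * Q = 1) :
    LI (x ᵥ* P) (y ᵥ* P) := by
  by_contra hcon
  unfold LI at hcon
  push Not at hcon
  obtain ⟨p, q, hpq⟩ := h
  apply hpq
  have hx : x = (x ᵥ* P) ᵥ* Q := by rw [Matrix.vecMul_vecMul, hPQ, Matrix.vecMul_one]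
  have hy : y = (y ᵥ* P) ᵥ* Q := by rw [Matrix.vecMul_vecMul, hPQ, Matrix.vecMul_one]
  set x' := x ᵥ* P with hx'
  set y' := y ᵥ* P with hy'
  have e1 : x p * y q = ∑ a, ∑ b, x' a * Q a p * (y' b * Q b q) := by
    conv_lhs => rw [hx, hy]
    simp only [Matrix.vecMul, dotProduct]
    rw [Finset.sum_mul_sum]
  have e2 : x q * y p = ∑ a, ∑ b, x' b * Q b q * (y' a * Q a p) := by
    conv_lhs => rw [hx, hy]
    simp only [Matrix.vecMul, dotProduct]
    rw [Finset.sum_mul_sum, Finset.sum_comm]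
  rw [e1, e2, ← Finset.sum_sub_distrib]
  refine Finset.sum_eq_zero fun a _ => ?_
  rw [← Finset.sum_sub_distrib]
  refine Finset.sum_eq_zero fun b _ => ?_
  linear_combination Q a p * Q b q * hcon a b

/-- the polynomial whose value at `s` is `(mom s) Z` at the column `p` -/
noncomputable def Rp {n : ℕ} (Z : Mt n) (p : Fin n) : Polynomial ℤ :=
  ∑ a : Fin n, Polynomial.C (Z a p) * Polynomial.X ^ (a : ℕ)

theorem Rp_eval {n : ℕ} (Z : Mt n) (p : Fin n) (s : ℤ) :
    (Rp Z p).eval s = (mom n s ᵥ* Z) p := by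
  unfold Rp mom
  rw [Polynomial.eval_finsetSum]
  simp only [Polynomial.eval_mul, Polynomial.eval_C, Polynomial.eval_pow, Polynomial.eval_X,
    Matrix.vecMul, dotProduct]
  exact Finset.sum_congr rfl fun a _ => mul_comm _ _

theorem Rp_coeff {n : ℕ} (Z : Mt n) (p : Fin n) (b : Fin n) : (Rp Z p).coeff b = Z b p := by
  unfold Rp
  rw [Polynomial.finsetSum_coeff, Finset.sum_eq_single b]
  · simp
  · intro a _ hab
    rw [Polynomial.coeff_C_mul, Polynomial.coeff_X_pow, if_neg, mul_zero]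
    intro h
    exact hab (Fin.ext h).symm
  · intro h
    exact absurd (Finset.mem_univ b) h

theorem Rp_coeff' {n : ℕ} (Z : Mt n) (p : Fin n) (b : ℕ) (hb : n ≤ b) : (Rp Z p).coeff b = 0 := by
  unfold Rp
  rw [Polynomial.finsetSum_coeff]
  refine Finset.sum_eq_zero fun a _ => ?_
  rw [Polynomial.coeff_C_mul, Polynomial.coeff_X_pow, if_neg, mul_zero]
  have := a.2
  omega

theorem scalar_of {k : ℕ} (Z : Mt (k + 3))
    (h : ∀ q : Fin (k + 3), Rp Z 0 * Polynomial.X ^ (q : ℕ) - Rp Z q = 0) : Z = Z 0 0 • (1 : Mt (k + 3)) := by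
  have h1 : ∀ a : Fin (k + 3), a ≠ 0 → Z a 0 = 0 := by
    intro a ha
    have h2 := congrArg (fun f => Polynomial.coeff f ((a : ℕ) + (k + 2))) (h (Fin.last (k + 2)))
    have ha' : 0 < (a : ℕ) := Nat.pos_of_ne_zero fun h => ha (Fin.ext h)
    simp only [Polynomial.coeff_sub, Polynomial.coeff_zero, Fin.val_last] at h2
    rw [Polynomial.coeff_mul_X_pow, Rp_coeff, Rp_coeff' _ _ _ (by omega), sub_zero] at h2
    exact h2
  ext b q
  have h2 := congrArg (fun f => Polynomial.coeff f (b : ℕ)) (h q)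
  simp only [Polynomial.coeff_sub, Polynomial.coeff_zero, Polynomial.coeff_mul_X_pow'] at h2
  rw [Rp_coeff] at h2
  rw [Matrix.smul_apply, Matrix.one_apply, smul_eq_mul]
  split_ifs at h2 with hqb
  · have h3 : (Rp Z 0).coeff ((b : ℕ) - (q : ℕ)) = Z ⟨(b : ℕ) - q, by omega⟩ 0 :=
      Rp_coeff Z 0 ⟨(b : ℕ) - q, by omega⟩
    rw [h3] at h2
    by_cases hbq : b = q
    · subst hbq
      have h4 : (⟨(b : ℕ) - b, by omega⟩ : Fin (k + 3)) = 0 := Fin.ext (by simp)
      rw [h4] at h2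
      rw [if_pos rfl, mul_one]
      linarith
    · have h4 := h1 ⟨(b : ℕ) - q, by omega⟩ (by
        intro h5
        have h6 := congrArg Fin.val h5
        simp only [Fin.val_zero] at h6
        exact hbq (Fin.ext (by omega)))
      rw [h4] at h2
      rw [if_neg hbq, mul_zero]
      linarith
  · rw [if_neg (fun h => hqb (by rw [h]))]
    linarith

theorem int_pow_one {a : ℤ} {n : ℕ} (hn : 0 < n) (h : a ^ n = 1) : a = 1 ∨ a = -1 := by
  have h1 : IsUnit a := (isUnit_pow_iff hn.ne').1 (by rw [h]; exact isUnit_one)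
  exact Int.isUnit_iff.1 h1

/-- section 2, first step -/
theorem norm1 {k : ℕ} {ι : Type} [Fintype ι] [DecidableEq ι] (X : ι → SLn (k + 3))
    (h : ∀ i j, i ≠ j → (X i : Mt (k + 3)) ≠ X j ∧ (X i : Mt (k + 3)) ≠ -(X j : Mt (k + 3))) :
    ∃ g : SLn (k + 3), ∀ i j, i ≠ j →
      LI (((g * X i * g⁻¹ : SLn (k + 3)) : Mt (k + 3)) 0)
        (((g * X j * g⁻¹ : SLn (k + 3)) : Mt (k + 3)) 0) := by
  classical
  -- for each pair a polynomial
  have h1 : ∀ i j, i ≠ j → ∃ q : Fin (k + 3),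
      Rp ((X i * (X j)⁻¹ : SLn (k + 3)) : Mt (k + 3)) 0 * Polynomial.X ^ (q : ℕ) -
        Rp ((X i * (X j)⁻¹ : SLn (k + 3)) : Mt (k + 3)) q ≠ 0 := by
    intro i j hij
    by_contra hcon
    push Not at hcon
    have h2 := scalar_of _ hcon
    set Z : SLn (k + 3) := X i * (X j)⁻¹ with hZ
    have h3 : ((Z : Mt (k + 3)) 0 0) ^ (k + 3) = 1 := by
      have h4 := Z.2
      rw [h2, Matrix.det_smul, Matrix.det_one, mul_one, Fintype.card_fin] at h4
      exact h4
    have h5 : (X i : Mt (k + 3)) = (Z : Mt (k + 3)) * (X j : Mt (k + 3)) := by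
      rw [← Matrix.SpecialLinearGroup.coe_mul, hZ, inv_mul_cancel_right]
    obtain ⟨h6, h7⟩ := h i j hij
    rcases int_pow_one (by omega) h3 with h8 | h8
    · apply h6
      rw [h5, h2, h8, one_smul, one_mul]
    · apply h7
      rw [h5, h2, h8, neg_smul, one_smul, neg_mul, one_mul]
  have h1' : ∀ p : ι × ι, ∃ q : Fin (k + 3), p.1 ≠ p.2 →
      Rp ((X p.1 * (X p.2)⁻¹ : SLn (k + 3)) : Mt (k + 3)) 0 * Polynomial.X ^ (q : ℕ) -
        Rp ((X p.1 * (X p.2)⁻¹ : SLn (k + 3)) : Mt (k + 3)) q ≠ 0 := by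
    intro p
    by_cases hp : p.1 = p.2
    · exact ⟨0, fun h => absurd hp h⟩
    · obtain ⟨q, hq⟩ := h1 p.1 p.2 hp
      exact ⟨q, fun _ => hq⟩
  choose q hq using h1'
  obtain ⟨M, _, hM⟩ := exists_eval_ne (Finset.univ.filter fun p : ι × ι => p.1 ≠ p.2)
    (fun p => Rp ((X p.1 * (X p.2)⁻¹ : SLn (k + 3)) : Mt (k + 3)) 0 * Polynomial.X ^ (q p : ℕ) -
        Rp ((X p.1 * (X p.2)⁻¹ : SLn (k + 3)) : Mt (k + 3)) (q p))
    (fun p hp => hq p (Finset.mem_filter.1 hp).2)
  -- the matrix with first row `mom M`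
  have hdot : (mom (k + 3) M - Pi.single 0 1) ⬝ᵥ (Pi.single 0 1 : Fin (k + 3) → ℤ) = 0 := by
    rw [dotProduct_single, mul_one, Pi.sub_apply, Pi.single_eq_same]
    simp [mom]
  set g : SLn (k + 3) := tv (Pi.single 0 1) (mom (k + 3) M - Pi.single 0 1) hdot with hg
  have hrow : (g : Mt (k + 3)) 0 = mom (k + 3) M := by
    funext p
    rw [hg, tv_coe, Matrix.add_apply, Matrix.vecMulVec_apply, Pi.single_eq_same, one_mul,
      Pi.sub_apply, Matrix.one_apply, Pi.single_apply]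
    by_cases hp : p = 0
    · subst hp
      simp
    · rw [if_neg (Ne.symm hp), if_neg hp]
      ring
  refine ⟨g, fun i j hij => ?_⟩
  have hr : ∀ i, ((g * X i * g⁻¹ : SLn (k + 3)) : Mt (k + 3)) 0 =
      (mom (k + 3) M ᵥ* ((X i : Mt (k + 3)))) ᵥ* ((g⁻¹ : SLn (k + 3)) : Mt (k + 3)) := by
    intro i
    rw [← hrow]
    funext p
    rw [Matrix.SpecialLinearGroup.coe_mul, Matrix.SpecialLinearGroup.coe_mul,
      Matrix.mul_apply_eq_vecMul, Matrix.mul_apply_eq_vecMul]
  rw [hr i, hr j]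
  refine LI.mul ?_ (Q := (g : Mt (k + 3))) (by
    rw [← Matrix.SpecialLinearGroup.coe_mul, inv_mul_cancel, Matrix.SpecialLinearGroup.coe_one])
  have h2 := hM M le_rfl (i, j) (Finset.mem_filter.2 ⟨Finset.mem_univ _, hij⟩)
  simp only [Polynomial.eval_sub, Polynomial.eval_mul, Polynomial.eval_pow, Polynomial.eval_X,
    Rp_eval] at h2
  have h3 : LI (mom (k + 3) M ᵥ* ((X i * (X j)⁻¹ : SLn (k + 3)) : Mt (k + 3))) (mom (k + 3) M) := by
    refine ⟨0, q (i, j), ?_⟩
    have h4 : mom (k + 3) M 0 = 1 := by simp [mom]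
    have h5 : mom (k + 3) M (q (i, j)) = M ^ (q (i, j) : ℕ) := rfl
    rw [h4, h5, mul_one]
    exact h2
  have h4 := LI.mul h3 (P := (X j : Mt (k + 3))) (Q := (((X j)⁻¹ : SLn (k + 3)) : Mt (k + 3))) (by
    rw [← Matrix.SpecialLinearGroup.coe_mul, mul_inv_cancel, Matrix.SpecialLinearGroup.coe_one])
  rw [Matrix.vecMul_vecMul, ← Matrix.SpecialLinearGroup.coe_mul, inv_mul_cancel_right] at h4
  exact h4

end Pool.Agent.Lib.MP_41a456_al.C
end

section

/-!
# Paper 377, section 2: the first two columns of the conjugating matrix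
-/

namespace Pool.Agent.Lib.MP_41a456_al.C

open Matrix

/-- the polynomial with value `z · mom v` at `v` -/
noncomputable def Vp {n : ℕ} (z : Fin n → ℤ) : Polynomial ℤ :=
  ∑ a : Fin n, Polynomial.C (z a) * Polynomial.X ^ (a : ℕ)

theorem Vp_eval {n : ℕ} (z : Fin n → ℤ) (v : ℤ) : (Vp z).eval v = z ⬝ᵥ mom n v := by
  unfold Vp mom
  rw [Polynomial.eval_finsetSum]
  simp only [Polynomial.eval_mul, Polynomial.eval_C, Polynomial.eval_pow, Polynomial.eval_X,
    dotProduct]

theorem Vp_coeff {n : ℕ} (z : Fin n → ℤ) (b : Fin n) : (Vp z).coeff b = z b := by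
  unfold Vp
  rw [Polynomial.finsetSum_coeff, Finset.sum_eq_single b]
  · simp
  · intro a _ hab
    rw [Polynomial.coeff_C_mul, Polynomial.coeff_X_pow, if_neg, mul_zero]
    intro h
    exact hab (Fin.ext h).symm
  · intro h
    exact absurd (Finset.mem_univ b) h

theorem Vp_ne {n : ℕ} {z : Fin n → ℤ} (h : z ≠ 0) : Vp z ≠ 0 := by
  intro h0
  apply h
  funext b
  rw [← Vp_coeff z b, h0, Polynomial.coeff_zero, Pi.zero_apply]

theorem LI.left_ne {n : ℕ} {x y : Fin n → ℤ} (h : LI x y) : x ≠ 0 := by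
  rintro rfl
  obtain ⟨p, q, hpq⟩ := h
  simp at hpq

/-- numbers `w`, `v` -/
theorem norm_num2 {k : ℕ} {ι : Type} [Fintype ι] [DecidableEq ι] (x : ι → Fin (k + 3) → ℤ)
    (i0 : ι) (h0 : x i0 = Pi.single 0 1) (h : ∀ i j, i ≠ j → LI (x i) (x j)) :
    ∃ c c' : Fin (k + 3) → ℤ, c 0 = 1 ∧ c' 0 = 0 ∧ c' 1 = 1 ∧ (∀ i, x i ⬝ᵥ c ≠ 0) ∧
      ∀ i j, i ≠ j → x i ⬝ᵥ c' * (x j ⬝ᵥ c) ≠ x j ⬝ᵥ c' * (x i ⬝ᵥ c) := by
  classical
  -- `w`
  have ht : ∀ i, i ≠ i0 → Fin.tail (x i) ≠ 0 := by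
    intro i hi ht0
    obtain ⟨p, q, hpq⟩ := h i i0 hi
    apply hpq
    have hx : ∀ a : Fin (k + 3), a ≠ 0 → x i a = 0 := by
      intro a ha
      obtain ⟨b, rfl⟩ := Fin.exists_succ_eq.2 ha
      exact congrFun ht0 b
    rw [h0]
    by_cases hp : p = 0
    · by_cases hq : q = 0
      · rw [hp, hq]
        ring
      · rw [hx q hq, Pi.single_eq_of_ne hq]
        ring
    · rw [hx p hp, Pi.single_eq_of_ne hp]
      ring
  obtain ⟨w, _, hw⟩ := exists_eval_ne (Finset.univ.filter fun i : ι => i ≠ i0)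
    (fun i => Vp (Fin.tail (x i))) (fun i hi => Vp_ne (ht i (Finset.mem_filter.1 hi).2))
  set c' : Fin (k + 3) → ℤ := Fin.cons 0 (mom (k + 2) w) with hc'
  have hdot : ∀ y : Fin (k + 3) → ℤ, y ⬝ᵥ c' = Fin.tail y ⬝ᵥ mom (k + 2) w := by
    intro y
    rw [hc']
    simp only [dotProduct]
    rw [Fin.sum_univ_succ]
    simp [Fin.tail]
  have hw' : ∀ i, i ≠ i0 → x i ⬝ᵥ c' ≠ 0 := by
    intro i hi
    rw [hdot, ← Vp_eval]
    exact hw w le_rfl i (Finset.mem_filter.2 ⟨Finset.mem_univ _, hi⟩)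
  -- `v`
  have hD : ∀ i j, i ≠ j → (x i ⬝ᵥ c') • x j - (x j ⬝ᵥ c') • x i ≠ 0 := by
    intro i j hij h1
    have h2 : ∀ p, x i ⬝ᵥ c' * x j p = x j ⬝ᵥ c' * x i p := fun p => by
      have h3 := congrFun h1 p
      simp only [Pi.sub_apply, Pi.smul_apply, smul_eq_mul, Pi.zero_apply] at h3
      linarith
    obtain ⟨p, q, hpq⟩ := h i j hij
    have h3 : x i ⬝ᵥ c' * (x i p * x j q - x i q * x j p) = 0 := by
      linear_combination x i p * h2 q - x i q * h2 p
    have h4 : x j ⬝ᵥ c' * (x i p * x j q - x i q * x j p) = 0 := by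
      linear_combination x j p * h2 q - x j q * h2 p
    have h5 : x i ⬝ᵥ c' = 0 := (mul_eq_zero.1 h3).resolve_right hpq
    have h6 : x j ⬝ᵥ c' = 0 := (mul_eq_zero.1 h4).resolve_right hpq
    by_cases hi : i = i0
    · exact hw' j (fun hj => hij (hi.trans hj.symm)) h6
    · exact hw' i hi h5
  set F2 : ι × ι → Polynomial ℤ := fun p => if p.1 = p.2 then 1 else
    Vp ((x p.1 ⬝ᵥ c') • x p.2 - (x p.2 ⬝ᵥ c') • x p.1) with hF2
  set F1 : ι → Polynomial ℤ := fun i => Vp (x i) with hF1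
  set F : ι ⊕ (ι × ι) → Polynomial ℤ := Sum.elim F1 F2 with hF
  obtain ⟨v, _, hv⟩ := exists_eval_ne (Finset.univ : Finset (ι ⊕ (ι × ι))) F (by
      rintro (i | p) _
      · simp only [hF, hF1, Sum.elim_inl]
        by_cases hi : i = i0
        · apply Vp_ne
          rw [hi, h0]
          intro h1
          have h2 := congrFun h1 0
          rw [Pi.single_eq_same, Pi.zero_apply] at h2
          exact one_ne_zero h2
        · exact Vp_ne (h i i0 hi).left_ne
      · simp only [hF, hF2, Sum.elim_inr]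
        split_ifs with hp
        · exact one_ne_zero
        · exact Vp_ne (hD _ _ hp))
  refine ⟨mom (k + 3) v, c', by simp [mom], rfl, by
    rw [hc']
    change (Fin.cons 0 (mom (k + 2) w) : Fin (k + 3) → ℤ) (Fin.succ 0) = 1
    rw [Fin.cons_succ]
    simp [mom], fun i => ?_, fun i j hij => ?_⟩
  · have h1 := hv v le_rfl (Sum.inl i) (Finset.mem_univ _)
    simp only [hF, hF1, Sum.elim_inl, Vp_eval] at h1
    exact h1
  · have h1 := hv v le_rfl (Sum.inr (i, j)) (Finset.mem_univ _)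
    simp only [hF, hF2, Sum.elim_inr] at h1
    rw [if_neg hij, Vp_eval, sub_dotProduct, smul_dotProduct, smul_dotProduct, smul_eq_mul,
      smul_eq_mul] at h1
    intro h2
    apply h1
    rw [h2]
    ring

/-- section 2 -/
theorem norm2 {k : ℕ} {ι : Type} [Fintype ι] [DecidableEq ι] (Y : ι → SLn (k + 3)) (i0 : ι)
    (h0 : Y i0 = 1)
    (h : ∀ i j, i ≠ j → LI ((Y i : Mt (k + 3)) 0) ((Y j : Mt (k + 3)) 0)) :
    ∃ g : SLn (k + 3), (∀ i, ((g * Y i * g⁻¹ : SLn (k + 3)) : Mt (k + 3)) 0 0 ≠ 0) ∧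
      ∀ i j, i ≠ j → ((g * Y i * g⁻¹ : SLn (k + 3)) : Mt (k + 3)) 0 1 *
          ((g * Y j * g⁻¹ : SLn (k + 3)) : Mt (k + 3)) 0 0 ≠
        ((g * Y j * g⁻¹ : SLn (k + 3)) : Mt (k + 3)) 0 1 *
          ((g * Y i * g⁻¹ : SLn (k + 3)) : Mt (k + 3)) 0 0 := by
  obtain ⟨c, c', hc, hc'0, hc'1, h1, h2⟩ := norm_num2 (fun i => (Y i : Mt (k + 3)) 0) i0 (by
    funext p
    simp only [h0, Matrix.SpecialLinearGroup.coe_one, Matrix.one_apply, Pi.single_apply, eq_comm]) h
  have hd1 : (Pi.single 0 1 : Fin (k + 3) → ℤ) ⬝ᵥ (c - Pi.single 0 1) = 0 := by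
    rw [single_dotProduct, one_mul, Pi.sub_apply, Pi.single_eq_same, hc, sub_self]
  have hd2 : (Pi.single 1 1 : Fin (k + 3) → ℤ) ⬝ᵥ (c' - Pi.single 1 1) = 0 := by
    rw [single_dotProduct, one_mul, Pi.sub_apply, Pi.single_eq_same, hc'1, sub_self]
  set H : SLn (k + 3) := tv (c - Pi.single 0 1) (Pi.single 0 1) hd1 *
    tv (c' - Pi.single 1 1) (Pi.single 1 1) hd2 with hH
  have h10 : (1 : Fin (k + 3)) ≠ 0 := by
    intro h
    have := congrArg Fin.val h
    simp at this
  have hHcoe : (H : Mt (k + 3)) = (1 + vecMulVec (c - Pi.single 0 1) (Pi.single 0 1)) *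
      (1 + vecMulVec (c' - Pi.single 1 1) (Pi.single 1 1)) := by
    rw [hH, Matrix.SpecialLinearGroup.coe_mul, tv_coe, tv_coe]
  -- the products of rows and columns
  have hcol : ∀ q : Fin (k + 3), (H : Mt (k + 3)).col q =
      (1 + vecMulVec (c - Pi.single 0 1) (Pi.single 0 1) : Mt (k + 3)) *ᵥ
        ((1 + vecMulVec (c' - Pi.single 1 1) (Pi.single 1 1) : Mt (k + 3)).col q) := by
    intro q
    rw [hHcoe]
    funext p
    rfl
  have hc0 : (H : Mt (k + 3)).col 0 = c := by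
    rw [hcol]
    have e1 : (1 + vecMulVec (c' - Pi.single 1 1) (Pi.single 1 1) : Mt (k + 3)).col 0 =
        Pi.single 0 1 := by
      funext p
      simp only [Matrix.col_apply, Matrix.add_apply, Matrix.one_apply, Matrix.vecMulVec_apply,
        Pi.single_apply, if_neg h10.symm]
      rw [mul_zero, add_zero]
    rw [e1, Matrix.add_mulVec, Matrix.one_mulVec, Matrix.vecMulVec_mulVec]
    funext p
    simp [Pi.single_apply]
  have hc1 : (H : Mt (k + 3)).col 1 = c' := by
    rw [hcol]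
    have e1 : (1 + vecMulVec (c' - Pi.single 1 1) (Pi.single 1 1) : Mt (k + 3)).col 1 = c' := by
      funext p
      simp only [Matrix.col_apply, Matrix.add_apply, Matrix.one_apply, Matrix.vecMulVec_apply,
        Pi.single_apply, Pi.sub_apply, if_true]
      ring
    rw [e1, Matrix.add_mulVec, Matrix.one_mulVec, Matrix.vecMulVec_mulVec]
    funext p
    simp [hc'0]
  have hrow : (H : Mt (k + 3)) 0 = Pi.single 0 1 := by
    rw [hHcoe]
    funext p
    rw [Matrix.mul_apply_eq_vecMul]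
    have e1 : (1 + vecMulVec (c - Pi.single 0 1) (Pi.single 0 1) : Mt (k + 3)) 0 =
        Pi.single 0 1 := by
      funext p
      rw [Matrix.add_apply, Matrix.vecMulVec_apply, Pi.sub_apply, Pi.single_eq_same, hc, sub_self,
        zero_mul, add_zero, Matrix.one_apply, Pi.single_apply]
      simp only [eq_comm]
    rw [e1, Matrix.single_one_vecMul]
    change (1 + vecMulVec (c' - Pi.single 1 1) (Pi.single 1 1) : Mt (k + 3)) 0 p = _
    rw [Matrix.add_apply, Matrix.vecMulVec_apply, Pi.sub_apply, Pi.single_eq_of_ne h10.symm, hc'0,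
      sub_zero, zero_mul, add_zero, Matrix.one_apply, Pi.single_apply]
    simp only [eq_comm]
  have hrow' : ((H⁻¹ : SLn (k + 3)) : Mt (k + 3)) 0 = Pi.single 0 1 := by
    have h3 : ((H⁻¹ : SLn (k + 3)) : Mt (k + 3)) 0 =
        ((H : Mt (k + 3)) 0) ᵥ* ((H⁻¹ : SLn (k + 3)) : Mt (k + 3)) := by
      rw [hrow, Matrix.single_one_vecMul]
      rfl
    rw [h3]
    have h4 : ((H : Mt (k + 3)) * ((H⁻¹ : SLn (k + 3)) : Mt (k + 3))) 0 = (Pi.single 0 1 : Fin (k + 3) → ℤ) := by
      rw [← Matrix.SpecialLinearGroup.coe_mul, mul_inv_cancel, Matrix.SpecialLinearGroup.coe_one]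
      funext p
      rw [Matrix.one_apply, Pi.single_apply]
      simp only [eq_comm]
    rw [← h4]
    funext p
    rw [Matrix.mul_apply_eq_vecMul]
  have key : ∀ i q, ((H⁻¹ * Y i * (H⁻¹)⁻¹ : SLn (k + 3)) : Mt (k + 3)) 0 q =
      (Y i : Mt (k + 3)) 0 ⬝ᵥ (H : Mt (k + 3)).col q := by
    intro i q
    rw [inv_inv, Matrix.SpecialLinearGroup.coe_mul, Matrix.SpecialLinearGroup.coe_mul,
      Matrix.mul_apply_eq_vecMul, Matrix.mul_apply_eq_vecMul, hrow', Matrix.single_one_vecMul]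
    rfl
  refine ⟨H⁻¹, fun i => ?_, fun i j hij => ?_⟩
  · rw [key, hc0]
    exact h1 i
  · rw [key, key, key, key, hc0, hc1]
    exact h2 i j hij

/-- section 2, both steps -/
theorem norm {k : ℕ} {ι : Type} [Fintype ι] [DecidableEq ι] (X : ι → SLn (k + 3)) (i0 : ι)
    (h0 : X i0 = 1)
    (h : ∀ i j, i ≠ j → (X i : Mt (k + 3)) ≠ X j ∧ (X i : Mt (k + 3)) ≠ -(X j : Mt (k + 3))) :
    ∃ g : SLn (k + 3), (∀ i, ((g * X i * g⁻¹ : SLn (k + 3)) : Mt (k + 3)) 0 0 ≠ 0) ∧
      ∀ i j, i ≠ j → ((g * X i * g⁻¹ : SLn (k + 3)) : Mt (k + 3)) 0 1 *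
          ((g * X j * g⁻¹ : SLn (k + 3)) : Mt (k + 3)) 0 0 ≠
        ((g * X j * g⁻¹ : SLn (k + 3)) : Mt (k + 3)) 0 1 *
          ((g * X i * g⁻¹ : SLn (k + 3)) : Mt (k + 3)) 0 0 := by
  obtain ⟨g1, hg1⟩ := norm1 X h
  obtain ⟨g2, h1, h2⟩ := norm2 (fun i => g1 * X i * g1⁻¹) i0 (by rw [h0, mul_one, mul_inv_cancel])
    hg1
  have h3 : ∀ i, g2 * g1 * X i * (g2 * g1)⁻¹ = g2 * (g1 * X i * g1⁻¹) * g2⁻¹ := fun i => by group
  refine ⟨g2 * g1, fun i => ?_, fun i j hij => ?_⟩
  · rw [h3]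
    exact h1 i
  · rw [h3, h3]
    exact h2 i j hij

end Pool.Agent.Lib.MP_41a456_al.C
end

section

/-!
# Paper 377, section 6: a bound independent of `m`
-/

namespace Pool.Agent.Lib.MP_41a456_al.C

open Matrix

theorem gs_mul {L : Type*} [CommRing L] (x : L) (N : ℕ) : (x - 1) * gs x N = x ^ N - 1 := by
  unfold gs
  rw [mul_comm]
  exact geom_sum_mul x N

theorem gs_congr {L : Type*} [CommRing L] {e x y : L} (h : e * x = e * y) (N : ℕ) :
    e * gs x N = e * gs y N := by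
  have h1 : ∀ j : ℕ, e * x ^ j = e * y ^ j := by
    intro j
    induction j with
    | zero => rw [pow_zero, pow_zero]
    | succ j ih =>
      rw [pow_succ, pow_succ, ← mul_assoc, ih]
      linear_combination y ^ j * h
  unfold gs
  rw [Finset.mul_sum, Finset.mul_sum]
  exact Finset.sum_congr rfl fun j _ => h1 j

theorem gs_cast {L : Type*} [CommRing L] (x : ℤ) (N : ℕ) : ((gs x N : ℤ) : L) = gs (x : L) N := by
  unfold gs
  push_cast
  rfl

/-- `f(x) = ∑ u_i (gs x (n i) - gs x (n σ i))` -/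
def fs {L : Type*} [CommRing L] {k : ℕ} (n : ℕ) (u : Fin k → ℤ) (σ : Equiv.Perm (Fin k)) (x : L) :
    L :=
  ∑ i, (u i : L) * (gs x (n * i) - gs x (n * (σ i : ℕ)))

theorem fs_congr {L : Type*} [CommRing L] {k : ℕ} (n : ℕ) (u : Fin k → ℤ)
    (σ : Equiv.Perm (Fin k)) {e x y : L} (h : e * x = e * y) :
    e * fs n u σ x = e * fs n u σ y := by
  unfold fs
  rw [Finset.mul_sum, Finset.mul_sum]
  refine Finset.sum_congr rfl fun i _ => ?_
  linear_combination (u i : L) * gs_congr h (n * i) - (u i : L) * gs_congr h (n * (σ i : ℕ))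

theorem fs_cast {L : Type*} [CommRing L] {k : ℕ} (n : ℕ) (u : Fin k → ℤ)
    (σ : Equiv.Perm (Fin k)) (x : ℤ) : ((fs n u σ x : ℤ) : L) = fs n u σ (x : L) := by
  unfold fs
  push_cast
  refine Finset.sum_congr rfl fun i _ => ?_
  rw [gs_cast, gs_cast]

/-- `P_σ = ∑ u_i (X^i - X^(σ i))` -/
noncomputable def Ps {k : ℕ} (u : Fin k → ℤ) (σ : Equiv.Perm (Fin k)) : Polynomial ℤ :=
  ∑ i, Polynomial.C (u i) * (Polynomial.X ^ (i : ℕ) - Polynomial.X ^ (σ i : ℕ))

theorem Ps_ne {k : ℕ} (u : Fin k → ℤ) (hu : Function.Injective u) (σ : Equiv.Perm (Fin k))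
    (hσ : σ ≠ 1) : Ps u σ ≠ 0 := by
  intro h0
  apply hσ
  have h1 : ∀ j : Fin k, σ.symm j = j := by
    intro j
    have h2 := congrArg (fun p => Polynomial.coeff p (j : ℕ)) h0
    simp only [Ps, Polynomial.finset_sum_coeff, Polynomial.coeff_C_mul, Polynomial.coeff_sub,
      Polynomial.coeff_X_pow, Polynomial.coeff_zero, mul_sub, Finset.sum_sub_distrib, mul_ite,
      mul_one, mul_zero] at h2
    rw [Finset.sum_eq_single j, Finset.sum_eq_single (σ.symm j)] at h2
    · simp at h2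
      exact (hu (by linarith)).symm
    · intro b _ hb
      rw [if_neg]
      intro h3
      apply hb
      rw [Fin.ext h3, Equiv.symm_apply_apply]
    · intro h
      exact absurd (Finset.mem_univ _) h
    · intro b _ hb
      rw [if_neg]
      intro h3
      exact hb (Fin.ext h3).symm
    · intro h
      exact absurd (Finset.mem_univ _) h
  ext j
  have h3 := h1 (σ j)
  rw [Equiv.symm_apply_apply] at h3
  rw [Equiv.Perm.one_apply, ← h3]

theorem fs_mul {k : ℕ} (n : ℕ) (u : Fin k → ℤ) (σ : Equiv.Perm (Fin k)) (x : ℤ) :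
    (x - 1) * fs n u σ x = (Ps u σ).eval (x ^ n) := by
  unfold fs Ps
  rw [Polynomial.eval_finset_sum, Finset.mul_sum]
  refine Finset.sum_congr rfl fun i _ => ?_
  have h1 := gs_mul x (n * i)
  have h2 := gs_mul x (n * (σ i : ℕ))
  simp only [Polynomial.eval_mul, Polynomial.eval_C, Polynomial.eval_sub, Polynomial.eval_pow,
    Polynomial.eval_X, ← pow_mul, Int.cast_id]
  linear_combination u i * h1 - u i * h2

theorem arith_int (n k : ℕ) (hn : 0 < n) (u : Fin k → ℤ) (hu : Function.Injective u) (d : ℕ)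
    (hd : 0 < d) : ∃ t : ℕ, 0 < t ∧ ∀ σ : Equiv.Perm (Fin k), σ ≠ 1 →
      (t : ℤ) * fs n u σ (1 + (d : ℤ) * t) ≠ 0 ∧ ((2 : ℤ) ^ t - 1) * fs n u σ ((2 : ℤ) ^ t) ≠ 0 := by
  classical
  obtain ⟨M, hM0, hM⟩ := exists_eval_ne (Finset.univ.erase (1 : Equiv.Perm (Fin k)))
    (fun σ => Ps u σ) (fun σ hσ => Ps_ne u hu σ (Finset.ne_of_mem_erase hσ))
  refine ⟨M.toNat + 1, Nat.succ_pos _, fun σ hσ => ?_⟩
  set t : ℕ := M.toNat + 1 with ht
  have htM : M ≤ (t : ℤ) := by omega
  have ht1 : (1 : ℤ) ≤ (t : ℤ) := by omega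
  have hd1 : (1 : ℤ) ≤ (d : ℤ) := by omega
  have hx1 : (t : ℤ) ≤ 1 + (d : ℤ) * t := by nlinarith
  have hx1' : (1 : ℤ) < 1 + (d : ℤ) * t := by nlinarith
  have hx2 : (t : ℤ) < (2 : ℤ) ^ t := by exact_mod_cast Nat.lt_two_pow_self
  have hself : ∀ x : ℤ, 1 ≤ x → x ≤ x ^ n := fun x hx => by
    exact le_self_pow₀ hx (by omega)
  have hσ' : σ ∈ Finset.univ.erase (1 : Equiv.Perm (Fin k)) :=
    Finset.mem_erase.2 ⟨hσ, Finset.mem_univ _⟩
  constructor
  · have h1 := hM ((1 + (d : ℤ) * t) ^ n) (by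
      have := hself (1 + (d : ℤ) * t) (by omega)
      omega) σ hσ'
    rw [← fs_mul] at h1
    have h2 := right_ne_zero_of_mul h1
    exact mul_ne_zero (by omega) h2
  · have h1 := hM (((2 : ℤ) ^ t) ^ n) (by
      have := hself ((2 : ℤ) ^ t) (by omega)
      omega) σ hσ'
    rw [← fs_mul] at h1
    exact h1

theorem arith (n k : ℕ) (hn : 0 < n) (u : Fin k → ℤ) (hu : Function.Injective u) (d : ℕ)
    (hd : 0 < d) (hd2 : 2 ∣ d) :
    ∃ B : ℕ, 0 < B ∧ ∀ m : ℕ, 0 < m → ∃ th lam lam' : ZMod m, lam = 1 + d * th ∧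
      lam * lam' = 1 ∧ ∀ σ : Equiv.Perm (Fin k), σ ≠ 1 → ∃ r : ℕ,
        (r : ZMod m) * (th * ∑ i, (u i : ZMod m) *
          (gs lam (n * i) - gs lam (n * (σ i : ℕ)))) = B := by
  classical
  obtain ⟨t, ht, hA⟩ := arith_int n k hn u hu d hd
  set A1 : Equiv.Perm (Fin k) → ℤ := fun σ => (t : ℤ) * fs n u σ (1 + (d : ℤ) * t) with hA1
  set A2 : Equiv.Perm (Fin k) → ℤ := fun σ => ((2 : ℤ) ^ t - 1) * fs n u σ ((2 : ℤ) ^ t) with hA2
  refine ⟨∏ σ ∈ Finset.univ.erase (1 : Equiv.Perm (Fin k)), ((A1 σ).natAbs * (A2 σ).natAbs), ?_, ?_⟩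
  · refine Finset.prod_pos fun σ hσ => ?_
    have h1 := hA σ (Finset.ne_of_mem_erase hσ)
    exact Nat.mul_pos (Int.natAbs_pos.2 h1.1) (Int.natAbs_pos.2 h1.2)
  · intro m hm
    obtain ⟨e1, e2, d', lam', he, hee, hdd, hlam⟩ := ring_elts d t m hd2 hm
    refine ⟨e1 * t + e2 * d' * (2 ^ t - 1), 1 + d * (e1 * t + e2 * d' * (2 ^ t - 1)), lam', rfl,
      hlam, fun σ hσ => ?_⟩
    set B := ∏ σ ∈ Finset.univ.erase (1 : Equiv.Perm (Fin k)), ((A1 σ).natAbs * (A2 σ).natAbs)
      with hB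
    set th : ZMod m := e1 * t + e2 * d' * (2 ^ t - 1) with hth
    have hσB : (A1 σ).natAbs * (A2 σ).natAbs ∣ B :=
      Finset.dvd_prod_of_mem (fun σ => (A1 σ).natAbs * (A2 σ).natAbs)
        (Finset.mem_erase.2 ⟨hσ, Finset.mem_univ _⟩)
    have hB1 : A1 σ ∣ (B : ℤ) := by
      rw [← Int.natAbs_dvd_natAbs, Int.natAbs_natCast]
      exact (Dvd.intro _ rfl).trans hσB
    have hB2 : A2 σ ∣ (B : ℤ) := by
      rw [← Int.natAbs_dvd_natAbs, Int.natAbs_natCast]
      exact (Dvd.intro_left _ rfl).trans hσB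
    obtain ⟨w1, hw1⟩ := hB1
    obtain ⟨w2, hw2⟩ := hB2
    have hw1' : (B : ZMod m) = (t : ZMod m) * fs n u σ (1 + (d : ZMod m) * t) * w1 := by
      have h1 := congrArg (Int.cast : ℤ → ZMod m) hw1
      simp only [hA1] at h1
      push_cast at h1
      rw [h1, fs_cast]
      push_cast
      rfl
    have hw2' : (B : ZMod m) = ((2 : ZMod m) ^ t - 1) * fs n u σ ((2 : ZMod m) ^ t) * w2 := by
      have h1 := congrArg (Int.cast : ℤ → ZMod m) hw2
      simp only [hA2] at h1
      push_cast at h1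
      rw [h1, fs_cast]
      push_cast
      rfl
    have he1 : e1 * e1 = e1 := by linear_combination e1 * he - hee
    have he2 : e2 * e2 = e2 := by linear_combination e2 * he - hee
    have h1 : e1 * (1 + d * th) = e1 * (1 + (d : ZMod m) * t) := by
      rw [hth]
      linear_combination (d : ZMod m) * t * he1 + (d : ZMod m) * d' * (2 ^ t - 1) * hee
    have h2 : e2 * (1 + d * th) = e2 * (2 : ZMod m) ^ t := by
      rw [hth]
      linear_combination (d : ZMod m) * t * hee + (d : ZMod m) * d' * (2 ^ t - 1) * he2 +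
        ((2 : ZMod m) ^ t - 1) * hdd
    have h3 := fs_congr n u σ h1
    have h4 := fs_congr n u σ h2
    haveI : NeZero m := ⟨by omega⟩
    refine ⟨(e1 * (w1 : ZMod m) + e2 * (d * (w2 : ZMod m)) : ZMod m).val, ?_⟩
    rw [ZMod.natCast_zmod_val]
    change (e1 * (w1 : ZMod m) + e2 * (d * (w2 : ZMod m))) * (th * fs n u σ (1 + d * th)) = (B : ZMod m)
    have h5 : e1 * th = e1 * t := by
      rw [hth]
      linear_combination (t : ZMod m) * he1 + d' * (2 ^ t - 1) * hee
    have h6 : e2 * (d * th) = e2 * ((2 : ZMod m) ^ t - 1) := by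
      rw [hth]
      linear_combination (d : ZMod m) * t * hee + (d : ZMod m) * d' * (2 ^ t - 1) * he2 +
        ((2 : ZMod m) ^ t - 1) * hdd
    calc (e1 * (w1 : ZMod m) + e2 * (d * (w2 : ZMod m))) * (th * fs n u σ (1 + d * th))
        = w1 * (e1 * th) * fs n u σ (1 + d * th) + w2 * (e2 * (d * th)) * fs n u σ (1 + d * th) := by
          ring
      _ = w1 * t * (e1 * fs n u σ (1 + d * th)) +
          w2 * ((2 : ZMod m) ^ t - 1) * (e2 * fs n u σ (1 + d * th)) := by
          rw [h5, h6]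
          ring
      _ = e1 * ((t : ZMod m) * fs n u σ (1 + (d : ZMod m) * t) * w1) +
          e2 * (((2 : ZMod m) ^ t - 1) * fs n u σ ((2 : ZMod m) ^ t) * w2) := by
          rw [h3, h4]
          ring
      _ = e1 * (B : ZMod m) + e2 * (B : ZMod m) := by rw [← hw1', ← hw2']
      _ = (B : ZMod m) := by rw [← add_mul, he, one_mul]

end Pool.Agent.Lib.MP_41a456_al.C
end

section

/-!
# Paper 377, section 3: the operators
-/

namespace Pool.Agent.Lib.MP_41a456_al.C

open Matrix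

variable {K : Type*} [Field K] {L : Type*} [CommRing L] {k : ℕ}

theorem act_single {n : ℕ} (P Q Y : Matrix (Fin n) (Fin n) L) (a : K) :
    act K P Q (Finsupp.single Y a) = Finsupp.single (P * Y * Q) a := by
  unfold act
  rw [Finsupp.lmapDomain_apply, Finsupp.mapDomain_single]

theorem act_sg {n : ℕ} (P Q Y : Matrix (Fin n) (Fin n) L) :
    act K P Q (sg K Y) = sg K (P * Y * Q) := act_single _ _ _ _

theorem act_act {n : ℕ} (P Q P' Q' : Matrix (Fin n) (Fin n) L) (v : Vf K n L) :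
    act K P Q (act K P' Q' v) = act K (P * P') (Q' * Q) v := by
  induction v using Finsupp.induction_linear with
  | zero => simp
  | add f g hf hg => rw [map_add, map_add, map_add, hf, hg]
  | single Y a => rw [act_single, act_single, act_single]; simp only [mul_assoc]

theorem act_one {n : ℕ} (v : Vf K n L) : act K (1 : Matrix (Fin n) (Fin n) L) 1 v = v := by
  induction v using Finsupp.induction_linear with
  | zero => simp
  | add f g hf hg => rw [map_add, hf, hg]
  | single Y a => rw [act_single, one_mul, mul_one]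

theorem tw_single {n : ℕ} (c : K × K) (Y : Matrix (Fin n) (Fin n) L) (a : K) :
    tw c (Finsupp.single Y a) = Finsupp.single Y (c.1 * a) + Finsupp.single (-Y) (c.2 * a) := by
  unfold tw
  rw [LinearMap.add_apply, LinearMap.smul_apply, LinearMap.smul_apply, LinearMap.id_apply,
    Finsupp.lmapDomain_apply, Finsupp.mapDomain_single, Finsupp.smul_single, Finsupp.smul_single,
    smul_eq_mul, smul_eq_mul]

theorem tw_act {n : ℕ} (c : K × K) (P Q : Matrix (Fin n) (Fin n) L) (v : Vf K n L) :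
    tw c (act K P Q v) = act K P Q (tw c v) := by
  induction v using Finsupp.induction_linear with
  | zero => simp
  | add f g hf hg => rw [map_add, map_add, hf, hg, map_add, map_add]
  | single Y a =>
    rw [act_single, tw_single, tw_single, map_add, act_single, act_single, Matrix.mul_neg,
      Matrix.neg_mul]

/-- the operators `(α, β) ↦ n^-(α) · n(β)` -/
noncomputable def phm (K : Type*) [Field K] (k : ℕ) (L : Type*) [CommRing L] :
    Multiplicative ((Fin (k + 2) → L) × (Fin (k + 2) → L)) →* Module.End K (Vf K (k + 3) L) where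
  toFun a := act K (nm a.toAdd.1) (np a.toAdd.2)
  map_one' := by
    ext1 v
    change act K (nm (0 : Fin (k + 2) → L)) (np 0) ∘ₗ _ = _
    rw [nm_zero, np_zero]
    ext1
    exact act_one _
  map_mul' a b := by
    refine LinearMap.ext fun v => ?_
    rw [Module.End.mul_apply, act_act]
    change act K (nm (a.toAdd.1 + b.toAdd.1)) (np (a.toAdd.2 + b.toAdd.2)) v = _
    rw [nm_add, add_comm a.toAdd.2, np_add]

/-- the homomorphism from the group algebra of the pairs `(α, β)` -/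
noncomputable def ph (K : Type*) [Field K] (k : ℕ) (L : Type*) [CommRing L] :
    DD K k L →ₐ[K] Module.End K (Vf K (k + 3) L) := AddMonoidAlgebra.lift K _ _ (phm K k L)

theorem ph_single (a : (Fin (k + 2) → L) × (Fin (k + 2) → L)) (b : K) :
    ph K k L (AddMonoidAlgebra.single a b) = b • act K (nm a.1) (np a.2) := by
  unfold ph
  rw [AddMonoidAlgebra.lift_single]
  rfl

theorem ph_single_one (a : (Fin (k + 2) → L) × (Fin (k + 2) → L)) :
    ph K k L (AddMonoidAlgebra.single a 1) = act K (nm a.1) (np a.2) := by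
  rw [ph_single, one_smul]

theorem ph_mem (hL : Function.Surjective (Int.cast : ℤ → L)) {J : Submodule K (Vf K (k + 3) L)}
    (hJ : St J) (d : DD K k L) : ∀ x ∈ J, ph K k L d x ∈ J := by
  intro x hx
  induction d using AddMonoidAlgebra.induction_linear with
  | zero => rw [map_zero, LinearMap.zero_apply]; exact J.zero_mem
  | add f g hf hg => rw [map_add, LinearMap.add_apply]; exact J.add_mem hf hg
  | single a b =>
    rw [ph_single, LinearMap.smul_apply]
    exact J.smul_mem _ (hJ _ (nm_mem hL _) _ (np_mem hL _) x hx)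

theorem ph_tw (c : K × K) (d : DD K k L) (v : Vf K (k + 3) L) :
    ph K k L d (tw c v) = tw c (ph K k L d v) := by
  induction d using AddMonoidAlgebra.induction_linear with
  | zero => rw [map_zero, LinearMap.zero_apply, LinearMap.zero_apply, map_zero]
  | add f g hf hg => rw [map_add, LinearMap.add_apply, hf, hg, LinearMap.add_apply, map_add]
  | single a b =>
    rw [ph_single, LinearMap.smul_apply, LinearMap.smul_apply, map_smul, tw_act]

/-- `[a] [b] = [a + b]` in the group algebra -/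
theorem sing_mul (a b : (Fin (k + 2) → L) × (Fin (k + 2) → L)) :
    (AddMonoidAlgebra.single a 1 : DD K k L) * AddMonoidAlgebra.single b 1 =
      AddMonoidAlgebra.single (a + b) 1 := by
  rw [AddMonoidAlgebra.single_mul_single, mul_one]

theorem sing_pow (a : (Fin (k + 2) → L) × (Fin (k + 2) → L)) (n : ℕ) :
    (AddMonoidAlgebra.single a 1 : DD K k L) ^ n = AddMonoidAlgebra.single (n • a) 1 := by
  rw [AddMonoidAlgebra.single_pow, one_pow]

theorem sing_zero : (AddMonoidAlgebra.single 0 1 : DD K k L) = 1 := rfl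

end Pool.Agent.Lib.MP_41a456_al.C
end

section

/-!
# Paper 377, section 4: the torus elements come from `SL_n(ℤ)`
-/

namespace Pool.Agent.Lib.MP_41a456_al.C

open Matrix

variable {L : Type*} [CommRing L] {k : ℕ}

section ring
variable {R : Type*} [Ring R] [Algebra L R] {A B : R}

theorem w_form (hA : A * A = 0) (hABA : A * B * A = A) {l l' : L} (h : l * l' = 1) :
    (1 + l • A) * (1 + (-l') • B) * (1 + l • A) = 1 - A * B - B * A + l • A - l' • B := by
  have e1 : (1 + l • A) * (1 + (-l') • B) = 1 + l • A - l' • B - A * B := by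
    simp only [add_mul, mul_add, one_mul, mul_one, smul_mul_assoc, mul_smul_comm, smul_smul]
    rw [smul_add, smul_smul, neg_mul, mul_comm l' l, h, neg_smul, neg_smul, one_smul]
    abel
  rw [e1]
  simp only [add_mul, sub_mul, mul_add, one_mul, mul_one, smul_mul_assoc, mul_smul_comm, smul_smul]
  rw [hA, hABA]
  simp only [smul_sub, smul_add, smul_smul, smul_zero, h, one_smul]
  abel

theorem w_prod (hA : A * A = 0) (hB : B * B = 0) (hABA : A * B * A = A) (hBAB : B * A * B = B)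
    {l l' : L} :
    (1 - A * B - B * A + l • A - l' • B) * (1 - A * B - B * A - A + B) =
      1 - A * B - B * A + l • (A * B) + l' • (B * A) := by
  have h1 : A * (B * A) = A := by rw [← mul_assoc, hABA]
  have h2 : B * (A * B) = B := by rw [← mul_assoc, hBAB]
  have h3 : A * (A * B) = 0 := by rw [← mul_assoc, hA, zero_mul]
  have h4 : B * (B * A) = 0 := by rw [← mul_assoc, hB, zero_mul]
  simp only [add_mul, sub_mul, mul_add, mul_sub, one_mul, mul_one, smul_mul_assoc, mul_assoc, h1,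
    h2, h3, h4, hA, hB, mul_zero, smul_zero]
  abel_nf

end ring

/-- the diagonal matrix `(λ at 0, λ' at j, 1 else)` -/
theorem diag_mem (hL : Function.Surjective (Int.cast : ℤ → L)) {l l' : L} (h : l * l' = 1)
    {j : Fin (k + 3)} (hj : j ≠ 0) :
    (Matrix.diagonal fun i => if i = 0 then l else if i = j then l' else 1 :
      Matrix (Fin (k + 3)) (Fin (k + 3)) L) ∈ Im (k + 3) L := by
  set A : Matrix (Fin (k + 3)) (Fin (k + 3)) L := vecMulVec (Pi.single 0 1) (Pi.single j 1) with hA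
  set B : Matrix (Fin (k + 3)) (Fin (k + 3)) L := vecMulVec (Pi.single j 1) (Pi.single 0 1) with hB
  have d1 : (Pi.single j 1 : Fin (k + 3) → L) ⬝ᵥ Pi.single 0 1 = 0 := by
    rw [single_dotProduct, one_mul, Pi.single_eq_of_ne hj]
  have d2 : (Pi.single 0 1 : Fin (k + 3) → L) ⬝ᵥ Pi.single j 1 = 0 := by
    rw [single_dotProduct, one_mul, Pi.single_eq_of_ne hj.symm]
  have d3 : (Pi.single 0 1 : Fin (k + 3) → L) ⬝ᵥ Pi.single 0 1 = 1 := by
    rw [single_dotProduct, one_mul, Pi.single_eq_same]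
  have d4 : (Pi.single j 1 : Fin (k + 3) → L) ⬝ᵥ Pi.single j 1 = 1 := by
    rw [single_dotProduct, one_mul, Pi.single_eq_same]
  have hAA : A * A = 0 := by rw [hA, vecMulVec_mul_vecMulVec, d1, zero_smul, vecMulVec_zero]
  have hBB : B * B = 0 := by rw [hB, vecMulVec_mul_vecMulVec, d2, zero_smul, vecMulVec_zero]
  have hAB : A * B = vecMulVec (Pi.single 0 1) (Pi.single 0 1) := by
    rw [hA, hB, vecMulVec_mul_vecMulVec, d4, one_smul]
  have hBA : B * A = vecMulVec (Pi.single j 1) (Pi.single j 1) := by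
    rw [hA, hB, vecMulVec_mul_vecMulVec, d3, one_smul]
  have hABA : A * B * A = A := by
    rw [hAB, hA, vecMulVec_mul_vecMulVec, d3, one_smul]
  have hBAB : B * A * B = B := by
    rw [hBA, hB, vecMulVec_mul_vecMulVec, d4, one_smul]
  have mA : ∀ x : L, 1 + x • A ∈ Im (k + 3) L := by
    intro x
    rw [hA, ← smul_vecMulVec, ← single_mul, one_mul]
    exact xs_mem hL hj.symm x
  have mB : ∀ x : L, 1 + x • B ∈ Im (k + 3) L := by
    intro x
    rw [hB, ← smul_vecMulVec, ← single_mul, one_mul]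
    exact xs_mem hL hj x
  have w1 : 1 - A * B - B * A + l • A - l' • B ∈ Im (k + 3) L := by
    rw [← w_form hAA hABA h]
    exact Im_mul (Im_mul (mA l) (mB (-l'))) (mA l)
  have w2 : 1 - A * B - B * A - A + B ∈ Im (k + 3) L := by
    have h1 := w_form (L := L) (A := A) (B := B) (l := -1) (l' := -1) hAA hABA (by ring)
    have h2 : 1 - A * B - B * A - A + B = 1 - A * B - B * A + (-1 : L) • A - (-1 : L) • B := by
      rw [neg_smul, neg_smul, one_smul, one_smul]
      abel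
    rw [h2, ← h1]
    exact Im_mul (Im_mul (mA _) (mB _)) (mA _)
  have h3 := Im_mul w1 w2
  rw [w_prod hAA hBB hABA hBAB] at h3
  convert h3 using 1
  rw [hAB, hBA]
  ext a b
  simp only [Matrix.add_apply, Matrix.sub_apply, Matrix.smul_apply, vecMulVec_apply, smul_eq_mul,
    Matrix.one_apply, Matrix.diagonal_apply, Pi.single_apply]
  by_cases hab : a = b
  · subst hab
    by_cases ha0 : a = 0
    · subst ha0
      simp [hj.symm]
    · by_cases haj : a = j
      · subst haj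
        simp [ha0]
      · simp [ha0, haj]
  · rw [if_neg hab, if_neg hab]
    by_cases ha0 : a = 0
    · subst ha0
      simp [Ne.symm hab, hj.symm]
    · by_cases haj : a = j
      · subst haj
        simp [ha0, Ne.symm hab]
      · simp [ha0, haj]

theorem tor_mem (hL : Function.Surjective (Int.cast : ℤ → L)) {l l' : L} (h : l * l' = 1) :
    tor k l l' ∈ Im (k + 3) L := by
  have key : ∀ s : Finset (Fin (k + 3)), (0 : Fin (k + 3)) ∉ s →
      (Matrix.diagonal fun i => if i = 0 then l ^ s.card else if i ∈ s then l' else 1 :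
        Matrix (Fin (k + 3)) (Fin (k + 3)) L) ∈ Im (k + 3) L := by
    intro s
    induction s using Finset.induction_on with
    | empty =>
      intro _
      have h1 : (Matrix.diagonal fun i => if i = 0 then l ^ (∅ : Finset (Fin (k + 3))).card else
          if i ∈ (∅ : Finset (Fin (k + 3))) then l' else 1 :
          Matrix (Fin (k + 3)) (Fin (k + 3)) L) = 1 := by
        rw [← Matrix.diagonal_one]
        congr 1
        funext i
        simp
      rw [h1]
      exact Im_one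
    | insert j s hj ih =>
      intro h0
      have hj0 : j ≠ 0 := fun h => h0 (h ▸ Finset.mem_insert_self _ _)
      have h1 := Im_mul (ih fun h => h0 (Finset.mem_insert_of_mem h)) (diag_mem hL h hj0)
      rw [Matrix.diagonal_mul_diagonal] at h1
      convert h1 using 2
      funext i
      rw [Finset.card_insert_of_notMem hj]
      by_cases hi0 : i = 0
      · subst hi0
        rw [if_pos rfl, if_pos rfl, if_pos rfl, pow_succ]
      · rw [if_neg hi0, if_neg hi0, if_neg hi0]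
        by_cases hij : i = j
        · subst hij
          rw [if_pos (Finset.mem_insert_self _ _), if_neg hj, if_pos rfl, one_mul]
        · rw [if_neg hij, mul_one]
          simp only [Finset.mem_insert, hij, false_or]
  have h2 := key (Finset.univ.erase 0) (Finset.notMem_erase _ _)
  rw [Finset.card_erase_of_mem (Finset.mem_univ _), Finset.card_univ, Fintype.card_fin] at h2
  unfold tor
  convert h2 using 2
  funext i
  by_cases hi0 : i = 0
  · subst hi0
    rw [if_pos rfl, if_pos rfl]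
    rfl
  · rw [if_neg hi0, if_neg hi0, if_pos (Finset.mem_erase.2 ⟨hi0, Finset.mem_univ _⟩)]

end Pool.Agent.Lib.MP_41a456_al.C
end

section

/-!
# Paper 377, section 0: Cramer and Lagrange for commuting operators
-/

namespace Pool.Agent.Lib.MP_41a456_al.C

open Matrix

/-- Cramer: apply `φ (adj A)` to the relations. -/
theorem cramer {K V D ι : Type*} [Field K] [AddCommGroup V] [Module K V] [CommRing D] [Fintype ι]
    [DecidableEq ι] (φ : D →+* Module.End K V) (J : Submodule K V)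
    (hJ : ∀ d, ∀ x ∈ J, φ d x ∈ J) (A : Matrix ι ι D) (r : ι → V)
    (h : ∀ i, ∑ j, φ (A i j) (r j) ∈ J) (j : ι) : φ A.det (r j) ∈ J := by
  have h1 : ∑ i, φ (A.adjugate j i) (∑ l, φ (A i l) (r l)) ∈ J :=
    Submodule.sum_mem _ fun i _ => hJ _ _ (h i)
  have h2 : ∑ i, φ (A.adjugate j i) (∑ l, φ (A i l) (r l)) =
      ∑ l, φ ((A.adjugate * A) j l) (r l) := by
    simp only [map_sum, Matrix.mul_apply, LinearMap.sum_apply]
    rw [Finset.sum_comm]
    refine Finset.sum_congr rfl fun l _ => Finset.sum_congr rfl fun i _ => ?_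
    rw [map_mul, Module.End.mul_apply]
  rw [h2, Matrix.adjugate_mul, Finset.sum_eq_single j] at h1
  · rw [Matrix.smul_apply, Matrix.one_apply_eq, smul_eq_mul, mul_one] at h1
    exact h1
  · intro l _ hl
    rw [Matrix.smul_apply, Matrix.one_apply_ne (Ne.symm hl), smul_zero, map_zero,
      LinearMap.zero_apply]
  · intro hj
    exact absurd (Finset.mem_univ j) hj

/-- Lagrange: apply the coefficients of `∏_{j ≠ j0} (X - y_j)` to the relations. -/
theorem lagrange {K V D ι : Type*} [Field K] [AddCommGroup V] [Module K V] [CommRing D]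
    [Fintype ι] [DecidableEq ι] (φ : D →+* Module.End K V) (J : Submodule K V)
    (hJ : ∀ d, ∀ x ∈ J, φ d x ∈ J) (y : ι → D) (v : ι → V)
    (h : ∀ x : ℕ, ∑ j, φ (y j ^ x) (v j) ∈ J) (j0 : ι) :
    φ (∏ j ∈ Finset.univ.erase j0, (y j0 - y j)) (v j0) ∈ J := by
  set P : Polynomial D := ∏ j ∈ Finset.univ.erase j0, (Polynomial.X - Polynomial.C (y j)) with hP
  have h1 : ∑ x ∈ P.support, φ (P.coeff x) (∑ j, φ (y j ^ x) (v j)) ∈ J :=
    Submodule.sum_mem _ fun x _ => hJ _ _ (h x)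
  have h2 : ∑ x ∈ P.support, φ (P.coeff x) (∑ j, φ (y j ^ x) (v j)) =
      ∑ j, φ (P.eval (y j)) (v j) := by
    simp only [map_sum]
    rw [Finset.sum_comm]
    refine Finset.sum_congr rfl fun j _ => ?_
    rw [Polynomial.eval_eq_sum, Polynomial.sum, map_sum, LinearMap.sum_apply]
    refine Finset.sum_congr rfl fun x _ => ?_
    rw [map_mul, Module.End.mul_apply]
  rw [h2, Finset.sum_eq_single j0] at h1
  · rw [hP, Polynomial.eval_prod] at h1
    simpa using h1
  · intro j _ hj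
    have h3 : P.eval (y j) = 0 := by
      rw [hP, Polynomial.eval_prod]
      exact Finset.prod_eq_zero (Finset.mem_erase.2 ⟨hj, Finset.mem_univ j⟩) (by simp)
    rw [h3, map_zero, LinearMap.zero_apply]
  · intro hj
    exact absurd (Finset.mem_univ j0) hj

end Pool.Agent.Lib.MP_41a456_al.C
end
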