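import Pool.Agent.Lib.MP_41a456_al.Defs

section

/-!
# MP_41a456_al, closed ideals (paper 377): definitions

`L` is a commutative ring (`ZMod m` in the application). Subspaces of the functions of finite support
on the matrices over `L`, stable under multiplication by matrices which come from `SL_n(ℤ)`.
-/

namespace Pool.Agent.Lib.MP_41a456_al.C

open Matrix

/-- functions on matrices -/
abbrev Vf (K : Type*) [Field K] (n : ℕ) (L : Type*) := Matrix (Fin n) (Fin n) L →₀ K

/-- reduction of the entries -/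
def red (L : Type*) [CommRing L] {n : ℕ} (X : Mt n) : Matrix (Fin n) (Fin n) L :=
  X.map fun a => (a : L)

/-- the matrices over `L` which come from `SL_n(ℤ)` -/
def Im (n : ℕ) (L : Type*) [CommRing L] : Set (Matrix (Fin n) (Fin n) L) :=
  {P | ∃ g : SLn n, P = red L (g : Mt n)}

/-- the operator `[Y] ↦ [P Y Q]` -/
noncomputable def act (K : Type*) [Field K] {n : ℕ} {L : Type*} [CommRing L]
    (P Q : Matrix (Fin n) (Fin n) L) : Vf K n L →ₗ[K] Vf K n L :=
  Finsupp.lmapDomain K K fun Y => P * Y * Q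

/-- the operator `[Y] ↦ c0 [Y] + c1 [-Y]` -/
noncomputable def tw {K : Type*} [Field K] {n : ℕ} {L : Type*} [CommRing L] (c : K × K) :
    Vf K n L →ₗ[K] Vf K n L :=
  c.1 • LinearMap.id + c.2 • Finsupp.lmapDomain K K fun Y => -Y

/-- `[Y]` -/
noncomputable def sg (K : Type*) [Field K] {n : ℕ} {L : Type*} (Y : Matrix (Fin n) (Fin n) L) :
    Vf K n L := Finsupp.single Y 1

/-- subspaces stable under multiplication by matrices which come from `SL_n(ℤ)` -/
def St {K : Type*} [Field K] {n : ℕ} {L : Type*} [CommRing L] (J : Submodule K (Vf K n L)) : Prop :=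
  ∀ P ∈ Im n L, ∀ Q ∈ Im n L, ∀ b ∈ J, act K P Q b ∈ J

/-- first basis vector -/
def e0 (L : Type*) [CommRing L] (k : ℕ) : Fin (k + 3) → L := Pi.single 0 1

/-- `n^-(α) = 1 + α e_0^T` -/
def nm {L : Type*} [CommRing L] {k : ℕ} (α : Fin (k + 2) → L) :
    Matrix (Fin (k + 3)) (Fin (k + 3)) L :=
  1 + vecMulVec (Fin.cons 0 α : Fin (k + 3) → L) (e0 L k)

/-- `n(β) = 1 + e_0 β` -/
def np {L : Type*} [CommRing L] {k : ℕ} (β : Fin (k + 2) → L) :
    Matrix (Fin (k + 3)) (Fin (k + 3)) L :=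
  1 + vecMulVec (e0 L k) (Fin.cons 0 β : Fin (k + 3) → L)

/-- `ε^x = 1 + x E_12` -/
def ep {L : Type*} [CommRing L] {k : ℕ} (x : L) : Matrix (Fin (k + 3)) (Fin (k + 3)) L :=
  1 + Matrix.single 1 2 x

/-- the torus element `diag(λ^(n-1), λ', .., λ')` -/
def tor {L : Type*} [CommRing L] (k : ℕ) (lam lam' : L) : Matrix (Fin (k + 3)) (Fin (k + 3)) L :=
  Matrix.diagonal fun i => if i = 0 then lam ^ (k + 2) else lam'

/-- `1 + x + .. + x^(N-1)` -/
def gs {L : Type*} [CommRing L] (x : L) (N : ℕ) : L := ∑ j ∈ Finset.range N, x ^ j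

/-- the group algebra of the pairs `(α, β)` -/
abbrev DD (K : Type*) [Field K] (k : ℕ) (L : Type*) [CommRing L] :=
  AddMonoidAlgebra K ((Fin (k + 2) → L) × (Fin (k + 2) → L))

/-- the polynomial `q` evaluated at `ε = 1 + E_12` -/
noncomputable def pe {K : Type*} [Field K] {k : ℕ} (L : Type*) [CommRing L] (q : Polynomial K) :
    Vf K (k + 3) L :=
  q.sum fun x a => Finsupp.single (ep (x : L)) a

/-- the polynomial `∏_{∅ ≠ S} (1 - X^(B |S|))`, `S` running over the subsets of `ι` -/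
noncomputable def qp (K : Type*) [Field K] (ι : Type*) [Fintype ι] [DecidableEq ι] (B : ℕ) :
    Polynomial K :=
  ∏ S ∈ (Finset.univ : Finset (Finset ι)).erase ∅, (1 - Polynomial.X ^ (B * S.card))

/-- rows linearly independent, in terms of 2 × 2 minors -/
def LI {n : ℕ} (x y : Fin n → ℤ) : Prop := ∃ p q, x p * y q - x q * y p ≠ 0

/-- the point `(1, s, s², ..)` of the moment curve -/
def mom (n : ℕ) (s : ℤ) : Fin n → ℤ := fun p => s ^ (p : ℕ)

end Pool.Agent.Lib.MP_41a456_al.C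
end

section

section

/-!
# Paper 377: the unipotent matrices `n^-(α)`, `n(β)`, `ε^x`
-/

namespace Pool.Agent.Lib.MP_41a456_al.C

open Matrix

variable {L : Type*} [CommRing L] {k : ℕ}

theorem E_mul {n : ℕ} (a b c d : Fin n → L) :
    (1 + vecMulVec a b) * (1 + vecMulVec c d) =
      1 + vecMulVec a b + vecMulVec c d + (b ⬝ᵥ c) • vecMulVec a d := by
  rw [add_mul, one_mul, mul_add, mul_one, vecMulVec_mul_vecMulVec, vecMulVec_smul]
  abel

theorem ep_eq (x : L) : (ep x : Matrix (Fin (k + 3)) (Fin (k + 3)) L) =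
    1 + vecMulVec (Pi.single 1 x) (Pi.single 2 1) := by
  unfold ep
  congr 1
  ext i j
  rw [vecMulVec_apply, Matrix.single_apply, Pi.single_apply, Pi.single_apply]
  by_cases h1 : i = 1
  · by_cases h2 : j = 2
    · simp [h1, h2]
    · rw [if_neg (fun h => h2 h.2.symm), if_neg h2, mul_zero]
  · rw [if_neg (fun h => h1 h.1.symm), if_neg h1, zero_mul]

theorem dot1 (α : Fin (k + 2) → L) : e0 L k ⬝ᵥ (Fin.cons 0 α : Fin (k + 3) → L) = 0 := by
  unfold e0
  rw [single_dotProduct, one_mul, Fin.cons_zero]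

theorem dot2 (α β : Fin (k + 2) → L) : (Fin.cons 0 β : Fin (k + 3) → L) ⬝ᵥ Fin.cons 0 α = β ⬝ᵥ α := by
  simp only [dotProduct]
  rw [Fin.sum_univ_succ]
  simp

theorem dot3 (α : Fin (k + 2) → L) :
    (Pi.single 2 1 : Fin (k + 3) → L) ⬝ᵥ (Fin.cons 0 α : Fin (k + 3) → L) = α 1 := by
  rw [single_dotProduct, one_mul]
  rfl

theorem one_ne : (0 : Fin (k + 3)) ≠ 1 := fun h => by
  have := congrArg Fin.val h
  simp at this

theorem two_ne : (0 : Fin (k + 3)) ≠ 2 := fun h => by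
  have h1 : (2 : Fin (k + 3)) = Fin.succ (Fin.succ 0) := rfl
  rw [h1] at h
  exact (Fin.succ_ne_zero _) h.symm

theorem two_ne_one : (2 : Fin (k + 3)) ≠ 1 := fun h => by
  have h1 : (2 : Fin (k + 3)) = Fin.succ (Fin.succ 0) := rfl
  have h2 : (1 : Fin (k + 3)) = Fin.succ 0 := rfl
  rw [h1, h2] at h
  exact (Fin.succ_ne_zero _) (Fin.succ_injective _ h)

theorem dot4 (x : L) : e0 L k ⬝ᵥ (Pi.single 1 x : Fin (k + 3) → L) = 0 := by
  unfold e0
  rw [single_dotProduct, one_mul, Pi.single_eq_of_ne one_ne]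

theorem dot5 (β : Fin (k + 2) → L) (x : L) :
    (Fin.cons 0 β : Fin (k + 3) → L) ⬝ᵥ (Pi.single 1 x : Fin (k + 3) → L) = β 0 * x := by
  rw [dotProduct_single]
  rfl

theorem dot6 : (Pi.single 2 1 : Fin (k + 3) → L) ⬝ᵥ e0 L k = 0 := by
  unfold e0
  rw [single_dotProduct, one_mul, Pi.single_eq_of_ne two_ne.symm]

theorem dot7 (x : L) : (Pi.single 2 1 : Fin (k + 3) → L) ⬝ᵥ (Pi.single 1 x : Fin (k + 3) → L) = 0 := by
  rw [single_dotProduct, one_mul, Pi.single_eq_of_ne two_ne_one]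

theorem cons_add (α α' : Fin (k + 2) → L) : (Fin.cons 0 (α + α') : Fin (k + 3) → L) =
    (Fin.cons 0 α : Fin (k + 3) → L) + (Fin.cons 0 α' : Fin (k + 3) → L) := by
  funext i
  refine Fin.cases ?_ (fun j => ?_) i
  · simp
  · simp

theorem cons_sub (α α' : Fin (k + 2) → L) : (Fin.cons 0 (α - α') : Fin (k + 3) → L) =
    (Fin.cons 0 α : Fin (k + 3) → L) - (Fin.cons 0 α' : Fin (k + 3) → L) := by
  funext i
  refine Fin.cases ?_ (fun j => ?_) i
  · simp
  · simp

theorem cons_single (a : Fin (k + 2)) (x : L) : (Fin.cons 0 (Pi.single a x) : Fin (k + 3) → L) =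
    Pi.single a.succ x := by
  funext i
  refine Fin.cases ?_ (fun j => ?_) i
  · rw [Fin.cons_zero, Pi.single_eq_of_ne (Fin.succ_ne_zero _).symm]
  · rw [Fin.cons_succ, Pi.single_apply, Pi.single_apply]
    simp only [Fin.succ_inj]

theorem nm_add (α α' : Fin (k + 2) → L) : nm (α + α') = nm α * nm α' := by
  unfold nm
  rw [E_mul, dot1, zero_smul, cons_add, add_vecMulVec]
  abel

theorem np_add (β β' : Fin (k + 2) → L) : np (β + β') = np β * np β' := by
  unfold np
  have h : (Fin.cons 0 β : Fin (k + 3) → L) ⬝ᵥ e0 L k = 0 := by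
    rw [dotProduct_comm, dot1]
  rw [E_mul, h, zero_smul, cons_add, vecMulVec_add]
  abel

theorem nm_zero : nm (0 : Fin (k + 2) → L) = 1 := by
  unfold nm
  have h : (Fin.cons 0 (0 : Fin (k + 2) → L) : Fin (k + 3) → L) = 0 := by
    funext i
    refine Fin.cases ?_ (fun j => ?_) i <;> simp
  rw [h, zero_vecMulVec, add_zero]

theorem np_zero : np (0 : Fin (k + 2) → L) = 1 := by
  unfold np
  have h : (Fin.cons 0 (0 : Fin (k + 2) → L) : Fin (k + 3) → L) = 0 := by
    funext i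
    refine Fin.cases ?_ (fun j => ?_) i <;> simp
  rw [h, vecMulVec_zero, add_zero]

theorem ep_add (x y : L) : (ep (x + y) : Matrix (Fin (k + 3)) (Fin (k + 3)) L) = ep x * ep y := by
  rw [ep_eq, ep_eq, ep_eq, E_mul, dot7, zero_smul, Pi.single_add, add_vecMulVec]
  abel

theorem ep_zero : (ep (0 : L) : Matrix (Fin (k + 3)) (Fin (k + 3)) L) = 1 := by
  rw [ep_eq, Pi.single_zero, zero_vecMulVec, add_zero]

theorem single_mul (i : Fin (k + 3)) (x y : L) :
    (Pi.single i (x * y) : Fin (k + 3) → L) = y • Pi.single i x := by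
  funext j
  rw [Pi.smul_apply, smul_eq_mul, Pi.single_apply, Pi.single_apply]
  split_ifs
  · ring
  · ring

/-- conjugation by `ε^x` -/
theorem ep_nm (x : L) (α : Fin (k + 2) → L) :
    ep x * nm α * ep (-x) = nm (α + Pi.single 0 (x * α 1)) := by
  have h1 : ep x * nm α = ep x +
      vecMulVec (Fin.cons 0 (α + Pi.single 0 (x * α 1)) : Fin (k + 3) → L) (e0 L k) := by
    have h2 : (Pi.single (Fin.succ 0) (x * α 1) : Fin (k + 3) → L) = (α 1) • Pi.single 1 x :=
      single_mul 1 x (α 1)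
    rw [ep_eq, cons_add, cons_single, add_vecMulVec, h2, smul_vecMulVec]
    unfold nm
    rw [E_mul, dot3]
    abel
  rw [h1]
  unfold nm
  rw [add_mul, ← ep_add, add_neg_cancel, ep_zero, ep_eq, mul_add, mul_one,
    vecMulVec_mul_vecMulVec, dot4, zero_smul, vecMulVec_zero, add_zero]

theorem ep_np (x : L) (β : Fin (k + 2) → L) :
    ep x * np β * ep (-x) = np (β - Pi.single 1 (x * β 0)) := by
  have h1 : np β * ep (-x) = ep (-x) +
      vecMulVec (e0 L k) (Fin.cons 0 (β - Pi.single 1 (x * β 0)) : Fin (k + 3) → L) := by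
    have h2 : (Pi.single (Fin.succ 1) (x * β 0) : Fin (k + 3) → L) = (x * β 0) • Pi.single 2 1 := by
      rw [← single_mul, one_mul]
      rfl
    rw [ep_eq, cons_sub, cons_single, vecMulVec_sub, h2, vecMulVec_smul]
    unfold np
    rw [E_mul, dot5, mul_neg, neg_smul, mul_comm x]
    abel
  rw [mul_assoc, h1]
  unfold np
  rw [mul_add, ← ep_add, add_neg_cancel, ep_zero, ep_eq, add_mul, one_mul,
    vecMulVec_mul_vecMulVec, dot6, zero_smul, vecMulVec_zero, add_zero]

/-- the Heisenberg commutator: `(1 + x E_10)(1 + b E_02)(1 - x E_10) = (1 + b E_02)(1 + x b E_12)` -/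
theorem nm_np (x b : L) : nm (Pi.single 0 x) * np (Pi.single 1 b) * nm (Pi.single 0 (-x)) =
    (np (Pi.single 1 b) * ep (x * b) : Matrix (Fin (k + 3)) (Fin (k + 3)) L) := by
  unfold nm np
  rw [cons_single, cons_single, cons_single, ep_eq]
  have h1 : (Fin.succ 0 : Fin (k + 3)) = 1 := rfl
  have h2 : (Fin.succ 1 : Fin (k + 3)) = 2 := rfl
  have h3 : e0 L k ⬝ᵥ e0 L k = 1 := by
    unfold e0
    rw [single_dotProduct, one_mul, Pi.single_eq_same]
  have h4 : (Pi.single 2 b : Fin (k + 3) → L) ⬝ᵥ (Pi.single 1 (x * b) : Fin (k + 3) → L) = 0 := by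
    rw [single_dotProduct, Pi.single_eq_of_ne two_ne_one, mul_zero]
  have h5 : (Pi.single 2 b : Fin (k + 3) → L) ⬝ᵥ (Pi.single 1 (-x) : Fin (k + 3) → L) = 0 := by
    rw [single_dotProduct, Pi.single_eq_of_ne two_ne_one, mul_zero]
  have h6 : (Pi.single 2 b : Fin (k + 3) → L) = b • Pi.single 2 1 := by
    rw [← single_mul, one_mul]
  rw [h1, h2, E_mul, E_mul, h3, h4, one_smul, zero_smul, add_zero]
  simp only [add_mul, mul_add, one_mul, mul_one, vecMulVec_mul_vecMulVec, dot4, h5, zero_smul,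
    vecMulVec_zero, add_zero]
  rw [Pi.single_neg, neg_vecMulVec, single_mul, smul_vecMulVec, h6, vecMulVec_smul,
    vecMulVec_smul]
  abel

theorem np_ep (b y : L) : np (Pi.single 1 b) * ep y =
    (ep y * np (Pi.single 1 b) : Matrix (Fin (k + 3)) (Fin (k + 3)) L) := by
  unfold np
  have h2 : (Fin.succ 1 : Fin (k + 3)) = 2 := rfl
  have h4 : (Pi.single 2 b : Fin (k + 3) → L) ⬝ᵥ (Pi.single 1 y : Fin (k + 3) → L) = 0 := by
    rw [single_dotProduct, Pi.single_eq_of_ne two_ne_one, mul_zero]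
  rw [cons_single, ep_eq, h2, E_mul, E_mul, h4, dot6, zero_smul, zero_smul]
  abel

theorem nm_ep (x y : L) : nm (Pi.single 0 x) * ep y =
    (ep y * nm (Pi.single 0 x) : Matrix (Fin (k + 3)) (Fin (k + 3)) L) := by
  unfold nm
  have h1 : (Fin.succ 0 : Fin (k + 3)) = 1 := rfl
  rw [cons_single, ep_eq, h1, E_mul, E_mul, dot4, dot7, zero_smul, zero_smul]
  abel

end Pool.Agent.Lib.MP_41a456_al.C
end

section

/-!
# Paper 377: matrices over `L` which come from `SL_n(ℤ)`
-/

namespace Pool.Agent.Lib.MP_41a456_al.C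

open Matrix

variable {L : Type*} [CommRing L] {k : ℕ}

theorem red_mul {n : ℕ} (X Y : Mt n) : red L (X * Y) = red L X * red L Y := by
  unfold red
  rw [show (fun a : ℤ => (a : L)) = (Int.castRingHom L : ℤ → L) from rfl, Matrix.map_mul]

theorem red_one {n : ℕ} : red L (1 : Mt n) = 1 := by
  unfold red
  rw [Matrix.map_one _ Int.cast_zero Int.cast_one]

theorem red_neg {n : ℕ} (X : Mt n) : red L (-X) = -red L X := by
  unfold red
  ext i j
  simp

theorem Im_mul {n : ℕ} {P Q : Matrix (Fin n) (Fin n) L} (hP : P ∈ Im n L) (hQ : Q ∈ Im n L) :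
    P * Q ∈ Im n L := by
  obtain ⟨g, rfl⟩ := hP
  obtain ⟨h, rfl⟩ := hQ
  exact ⟨g * h, by rw [Matrix.SpecialLinearGroup.coe_mul, red_mul]⟩

theorem Im_one {n : ℕ} : (1 : Matrix (Fin n) (Fin n) L) ∈ Im n L :=
  ⟨1, by rw [Matrix.SpecialLinearGroup.coe_one, red_one]⟩

theorem red_mem {n : ℕ} (g : SLn n) : red L (g : Mt n) ∈ Im n L := ⟨g, rfl⟩

theorem E_mem {n : ℕ} (v ψ : Fin n → ℤ) (h : ψ ⬝ᵥ v = 0) {a b : Fin n → L}
    (ha : ∀ i, (v i : L) = a i) (hb : ∀ i, (ψ i : L) = b i) : 1 + vecMulVec a b ∈ Im n L := by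
  refine ⟨tv v ψ h, ?_⟩
  rw [tv_coe]
  unfold red
  ext i j
  rw [Matrix.map_apply, Matrix.add_apply, Matrix.add_apply, vecMulVec_apply, vecMulVec_apply,
    Matrix.one_apply, Matrix.one_apply, ← ha, ← hb]
  split_ifs <;> push_cast <;> rfl

theorem nm_mem (hL : Function.Surjective (Int.cast : ℤ → L)) (α : Fin (k + 2) → L) :
    nm α ∈ Im (k + 3) L := by
  choose f hf using hL
  refine E_mem (Fin.cons 0 fun i => f (α i)) (Pi.single 0 1) (by
    rw [single_dotProduct, one_mul, Fin.cons_zero]) (fun i => ?_) (fun i => ?_)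
  · refine Fin.cases ?_ (fun j => ?_) i
    · simp
    · rw [Fin.cons_succ, Fin.cons_succ, hf]
  · unfold e0
    rw [Pi.single_apply, Pi.single_apply]
    split_ifs <;> simp

theorem np_mem (hL : Function.Surjective (Int.cast : ℤ → L)) (β : Fin (k + 2) → L) :
    np β ∈ Im (k + 3) L := by
  choose f hf using hL
  refine E_mem (Pi.single 0 1) (Fin.cons 0 fun i => f (β i)) (by
    rw [dotProduct_single, mul_one, Fin.cons_zero]) (fun i => ?_) (fun i => ?_)
  · unfold e0
    rw [Pi.single_apply, Pi.single_apply]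
    split_ifs <;> simp
  · refine Fin.cases ?_ (fun j => ?_) i
    · simp
    · rw [Fin.cons_succ, Fin.cons_succ, hf]

/-- `1 + a E_ij` -/
theorem xs_mem (hL : Function.Surjective (Int.cast : ℤ → L)) {n : ℕ} {i j : Fin n} (hij : i ≠ j)
    (x : L) : 1 + vecMulVec (Pi.single i x) (Pi.single j 1) ∈ Im n L := by
  obtain ⟨a, ha⟩ := hL x
  refine E_mem (Pi.single i a) (Pi.single j 1) (by
    rw [single_dotProduct, one_mul, Pi.single_eq_of_ne hij.symm]) (fun l => ?_) (fun l => ?_)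
  · rw [Pi.single_apply, Pi.single_apply]
    split_ifs <;> simp [ha]
  · rw [Pi.single_apply, Pi.single_apply]
    split_ifs <;> simp

theorem ep_mem (hL : Function.Surjective (Int.cast : ℤ → L)) (x : L) :
    (ep x : Matrix (Fin (k + 3)) (Fin (k + 3)) L) ∈ Im (k + 3) L := by
  rw [ep_eq]
  exact xs_mem hL (two_ne_one.symm) x

end Pool.Agent.Lib.MP_41a456_al.C
end
end
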